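import Pool.Agent.Q253.HV.Stm

/-! # Project HV, job FI -/

set_option autoImplicit false

namespace Pool.Agent.Q237.HV

open MeasureTheory Filter Topology Set
open Pool.Agent.Q253.HV

theorem exp_neg_le (y : ℝ) (hy : 0 ≤ y) : Real.exp (-y) ≤ 1 - y + y ^ 2 / 2 := by
  have hd : ∀ x : ℝ, HasDerivAt (fun x : ℝ => 1 - x + x ^ 2 / 2 - Real.exp (-x))
      (-1 + x + Real.exp (-x)) x := by
    intro x
    have h1 : HasDerivAt (fun x : ℝ => Real.exp (-x)) (Real.exp (-x) * (-1)) x :=
      (Real.hasDerivAt_exp (-x)).comp x (hasDerivAt_neg x)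
    have h2 := (((hasDerivAt_id x).const_sub 1).add ((hasDerivAt_pow 2 x).div_const 2)).sub h1
    refine h2.congr_deriv ?_
    simp
  have hm : MonotoneOn (fun x : ℝ => 1 - x + x ^ 2 / 2 - Real.exp (-x)) (Ici 0) := by
    apply monotoneOn_of_deriv_nonneg (convex_Ici 0)
    · exact fun x _ => (hd x).continuousAt.continuousWithinAt
    · exact fun x _ => (hd x).differentiableAt.differentiableWithinAt
    · intro x _
      rw [(hd x).deriv]
      have := Real.add_one_le_exp (-x)
      linarith
  have := hm (self_mem_Ici) (mem_Ici.2 hy) hy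
  simp at this
  linarith

theorem exp_neg_ge (y : ℝ) (hy : 0 ≤ y) : 1 - y + y ^ 2 / 2 - y ^ 3 / 6 ≤ Real.exp (-y) := by
  have hd : ∀ x : ℝ, HasDerivAt (fun x : ℝ => Real.exp (-x) - (1 - x + x ^ 2 / 2 - x ^ 3 / 6))
      (-Real.exp (-x) + 1 - x + x ^ 2 / 2) x := by
    intro x
    have h1 : HasDerivAt (fun x : ℝ => Real.exp (-x)) (Real.exp (-x) * (-1)) x :=
      (Real.hasDerivAt_exp (-x)).comp x (hasDerivAt_neg x)
    have h2 := h1.sub ((((hasDerivAt_id x).const_sub 1).add ((hasDerivAt_pow 2 x).div_const 2)).sub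
      ((hasDerivAt_pow 3 x).div_const 6))
    refine h2.congr_deriv ?_
    simp
    ring
  have hm : MonotoneOn (fun x : ℝ => Real.exp (-x) - (1 - x + x ^ 2 / 2 - x ^ 3 / 6)) (Ici 0) := by
    apply monotoneOn_of_deriv_nonneg (convex_Ici 0)
    · exact fun x _ => (hd x).continuousAt.continuousWithinAt
    · exact fun x _ => (hd x).differentiableAt.differentiableWithinAt
    · intro x hx
      rw [(hd x).deriv]
      rw [interior_Ici] at hx
      have := exp_neg_le x (le_of_lt hx)
      linarith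
  have := hm (self_mem_Ici) (mem_Ici.2 hy) hy
  simp at this
  linarith

theorem near_int (c : ℝ) (hc : 0 < c) :
    ∫ α in (0 : ℝ)..1, α * Real.exp (-(2 * c * α)) =
      (1 - Real.exp (-(2 * c)) * (1 + 2 * c)) / (4 * c ^ 2) := by
  have hd : ∀ x : ℝ, HasDerivAt (fun x : ℝ => -(x / (2 * c) + 1 / (4 * c ^ 2)) *
      Real.exp (-(2 * c * x))) (x * Real.exp (-(2 * c * x))) x := by
    intro x
    have h1 : HasDerivAt (fun x : ℝ => Real.exp (-(2 * c * x)))
        (Real.exp (-(2 * c * x)) * (-(2 * c))) x := by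
      have h0 : HasDerivAt (fun x : ℝ => -(2 * c * x)) (-(2 * c)) x := by
        have h00 : HasDerivAt (fun x : ℝ => 2 * c * x) (2 * c * 1) x :=
          (hasDerivAt_id x).const_mul (2 * c)
        rw [mul_one] at h00
        exact h00.neg
      exact (Real.hasDerivAt_exp _).comp x h0
    have h2 : HasDerivAt (fun x : ℝ => -(x / (2 * c) + 1 / (4 * c ^ 2))) (-(1 / (2 * c))) x :=
      (((hasDerivAt_id x).div_const (2 * c)).add_const _).neg
    refine (h2.mul h1).congr_deriv ?_
    field_simp
    ring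
  rw [intervalIntegral.integral_eq_sub_of_hasDerivAt (fun x _ => hd x)
    (Continuous.intervalIntegrable (by fun_prop) _ _)]
  simp only [mul_zero, neg_zero, Real.exp_zero, mul_one, zero_div, zero_add]
  field_simp
  ring

/-- the comparison of the main terms -/
theorem main_le (c h : ℝ) (hc : 0 < c) (hh : 0 < h) (hch : c * h ≤ 1 / 2) :
    (1 - Real.exp (-(2 * c)) * (1 + 2 * c)) / (4 * c ^ 2) +
      Real.exp (-(2 * c)) / (2 * c * (1 - c * h)) ≤ 1 / (2 * c) - 1 / 2 + c / 3 + h := by
  have h1 : 0 < 1 - c * h := by linarith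
  have e1 : Real.exp (-(2 * c)) / (2 * c * (1 - c * h)) = Real.exp (-(2 * c)) / (2 * c) +
      Real.exp (-(2 * c)) * h / (2 * (1 - c * h)) := by
    field_simp
    ring
  have e2 : (1 - Real.exp (-(2 * c)) * (1 + 2 * c)) / (4 * c ^ 2) +
      Real.exp (-(2 * c)) / (2 * c) = (1 - Real.exp (-(2 * c))) / (4 * c ^ 2) := by
    field_simp
    ring
  have h2 : (1 - Real.exp (-(2 * c))) / (4 * c ^ 2) ≤ 1 / (2 * c) - 1 / 2 + c / 3 := by
    have h3 := exp_neg_ge (2 * c) (by linarith)
    have e3 : 1 / (2 * c) - 1 / 2 + c / 3 = (2 * c - (2 * c) ^ 2 / 2 + (2 * c) ^ 3 / 6) /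
        (4 * c ^ 2) := by
      field_simp
      ring
    rw [e3]
    apply div_le_div_of_nonneg_right _ (by positivity)
    linarith
  have h4 : Real.exp (-(2 * c)) * h / (2 * (1 - c * h)) ≤ h := by
    rw [div_le_iff₀ (by positivity)]
    have h5 : Real.exp (-(2 * c)) ≤ 1 := by
      rw [Real.exp_le_one_iff]
      linarith
    have h6 : Real.exp (-(2 * c)) * h ≤ 1 * h := mul_le_mul_of_nonneg_right h5 hh.le
    nlinarith
  rw [e1]
  linarith

theorem geom_le (c h : ℝ) (hc : 0 < c) (hh : 0 < h) (hch : c * h ≤ 1 / 2) (m : ℕ) :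
    ∑ i ∈ Finset.range m, Real.exp (-(2 * c * (1 + i * h))) * h ≤
      Real.exp (-(2 * c)) / (2 * c * (1 - c * h)) := by
  have h1 : 0 < 1 - c * h := by linarith
  obtain ⟨r, hr⟩ : ∃ r, r = Real.exp (-(2 * c * h)) := ⟨_, rfl⟩
  have hr0 : 0 < r := by rw [hr]; exact Real.exp_pos _
  have e1 : ∀ i : ℕ, Real.exp (-(2 * c * (1 + i * h))) * h = Real.exp (-(2 * c)) * h * r ^ i := by
    intro i
    have : -(2 * c * (1 + i * h)) = -(2 * c) + i * (-(2 * c * h)) := by ring
    rw [this, Real.exp_add, Real.exp_nat_mul, hr]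
    ring
  simp_rw [e1]
  rw [← Finset.mul_sum]
  have h2 : 2 * c * h * (1 - c * h) ≤ 1 - r := by
    have := exp_neg_le (2 * c * h) (by positivity)
    rw [hr]
    nlinarith
  have h3 : (∑ i ∈ Finset.range m, r ^ i) * (1 - r) ≤ 1 := by
    rw [geom_sum_mul_neg]
    have := pow_pos hr0 m
    linarith
  have h4 : (∑ i ∈ Finset.range m, r ^ i) * (2 * c * h * (1 - c * h)) ≤ 1 := by
    refine le_trans (mul_le_mul_of_nonneg_left h2 ?_) h3
    exact Finset.sum_nonneg fun i _ => (pow_pos hr0 i).le
  rw [le_div_iff₀ (by positivity)]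
  have h5 := Real.exp_pos (-(2 * c))
  calc Real.exp (-(2 * c)) * h * (∑ i ∈ Finset.range m, r ^ i) * (2 * c * (1 - c * h)) =
      Real.exp (-(2 * c)) * ((∑ i ∈ Finset.range m, r ^ i) * (2 * c * h * (1 - c * h))) := by ring
    _ ≤ Real.exp (-(2 * c)) * 1 := mul_le_mul_of_nonneg_left h4 h5.le
    _ = Real.exp (-(2 * c)) := mul_one _

/-- sums over the cells -/
theorem cells (m p q : ℕ) (hpq : p ≤ q) (hq : q ≤ m) (E w : ℕ → ℝ) (h ε0 e : ℝ)
    (he : 0 ≤ e) (hE : ∀ i, i < m → 0 ≤ E i) (hE1 : ∀ i, i < m → E i ≤ 1) (hε0 : 0 ≤ ε0)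
    (hEe : ∀ i, i < q → e ≤ E i) (hw : ∀ i, i < m → w i ≤ h + ε0) :
    ∑ i ∈ Finset.range m, E i * w i ≤ ∑ i ∈ Finset.range m, E i * h + m * ε0 -
      e * ((q - p) * h - ∑ i ∈ Finset.Ico p q, w i) := by
  have h1 : ∑ i ∈ Finset.range m, E i * (h + ε0 - w i) ≥
      ∑ i ∈ Finset.Ico p q, E i * (h + ε0 - w i) := by
    apply Finset.sum_le_sum_of_subset_of_nonneg
    · intro i hi
      rw [Finset.mem_Ico] at hi
      rw [Finset.mem_range]
      omega
    · intro i hi _
      rw [Finset.mem_range] at hi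
      exact mul_nonneg (hE i hi) (by linarith [hw i hi])
  have h2 : ∑ i ∈ Finset.Ico p q, E i * (h + ε0 - w i) ≥
      ∑ i ∈ Finset.Ico p q, e * (h + ε0 - w i) := by
    apply Finset.sum_le_sum
    intro i hi
    rw [Finset.mem_Ico] at hi
    exact mul_le_mul_of_nonneg_right (hEe i hi.2) (by linarith [hw i (by omega)])
  have h3 : ∑ i ∈ Finset.Ico p q, e * (h + ε0 - w i) =
      e * ((q - p) * (h + ε0) - ∑ i ∈ Finset.Ico p q, w i) := by
    rw [← Finset.mul_sum, Finset.sum_sub_distrib, Finset.sum_const, Nat.card_Ico, nsmul_eq_mul,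
      Nat.cast_sub hpq]
  have h4 : e * ((q - p) * h - ∑ i ∈ Finset.Ico p q, w i) ≤
      e * ((q - p) * (h + ε0) - ∑ i ∈ Finset.Ico p q, w i) := by
    apply mul_le_mul_of_nonneg_left _ he
    have : (0 : ℝ) ≤ (q : ℝ) - p := by
      have : (p : ℝ) ≤ q := by exact_mod_cast hpq
      linarith
    nlinarith
  have h5 : ∑ i ∈ Finset.range m, E i * (h + ε0 - w i) = ∑ i ∈ Finset.range m, E i * h +
      (∑ i ∈ Finset.range m, E i) * ε0 - ∑ i ∈ Finset.range m, E i * w i := by
    rw [Finset.sum_mul, ← Finset.sum_add_distrib, ← Finset.sum_sub_distrib]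
    apply Finset.sum_congr rfl
    intro i _
    ring
  have h6 : (∑ i ∈ Finset.range m, E i) ≤ m := by
    have : (∑ i ∈ Finset.range m, E i) ≤ ∑ i ∈ Finset.range m, (1 : ℝ) :=
      Finset.sum_le_sum fun i hi => hE1 i (Finset.mem_range.1 hi)
    simpa using this
  have h7 : (∑ i ∈ Finset.range m, E i) * ε0 ≤ m * ε0 := mul_le_mul_of_nonneg_right h6 hε0
  linarith

/-- **Job HV-FI.** -/
theorem t_FI : S_FI := by
  intro a b ε C0 ha hab hε hC0
  by_cases hbig : b - a ≤ ε
  · refine ⟨1, 1, one_pos, le_refl _, one_pos, 0, fun _ => 1, fun _ => le_refl _,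
      fun i hi => absurd hi (Nat.not_lt_zero i), ?_⟩
    intro L H hL hH _ _ _ _ _
    have h1 : 0 ≤ ∫ t in (a * L)..(b * L), H t :=
      intervalIntegral.integral_nonneg (by nlinarith) fun t _ => hH t
    have h2 : (b - a - ε) * L ^ 2 ≤ 0 := mul_nonpos_of_nonpos_of_nonneg (by linarith) (sq_nonneg L)
    linarith
  · push Not at hbig
    have hb0 : 0 < b := by linarith
    obtain ⟨c, hc0, hc1, hcb, hcε⟩ : ∃ c : ℝ, 0 < c ∧ c ≤ 1 ∧ c * b ≤ 1 ∧ c ≤ 3 * ε / 64 := by
      refine ⟨min 1 (min (1 / b) (3 * ε / 64)), by positivity, min_le_left _ _, ?_, ?_⟩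
      · have h1 : min 1 (min (1 / b) (3 * ε / 64)) ≤ 1 / b :=
          (min_le_right _ _).trans (min_le_left _ _)
        calc min 1 (min (1 / b) (3 * ε / 64)) * b ≤ 1 / b * b :=
              mul_le_mul_of_nonneg_right h1 hb0.le
          _ = 1 := by field_simp
      · exact (min_le_right _ _).trans (min_le_right _ _)
    obtain ⟨h, hh0, hh1, hhε⟩ : ∃ h : ℝ, 0 < h ∧ h ≤ 1 / 2 ∧ h ≤ ε / 64 :=
      ⟨min (1 / 2) (ε / 64), by positivity, min_le_left _ _, min_le_right _ _⟩
    have hch : c * h ≤ 1 / 2 := by nlinarith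
    obtain ⟨m, hm⟩ := exists_nat_ge (max ((b - 1) / h) (64 * C0 / (c ^ 3 * h * ε)))
    have hm1 : b - 1 ≤ m * h := by
      have := (le_max_left _ _).trans hm
      rwa [div_le_iff₀ hh0] at this
    have hm2 : 64 * C0 ≤ m * (c ^ 3 * h * ε) := by
      have := (le_max_right _ _).trans hm
      rwa [div_le_iff₀ (by positivity)] at this
    obtain ⟨ε0, hε0⟩ : ∃ ε0, ε0 = ε / (64 * (m + 2)) := ⟨_, rfl⟩
    have hε0' : 0 < ε0 := by rw [hε0]; positivity
    have hε0m : (m + 2) * ε0 = ε / 64 := by rw [hε0]; field_simp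
    have htail : Real.exp (-(c * (1 + m * h))) * (C0 / c ^ 2) ≤ ε / 64 := by
      have h1 : c * (1 + m * h) * Real.exp (-(c * (1 + m * h))) ≤ 1 := by
        have h2 := Real.add_one_le_exp (c * (1 + m * h))
        have h3 := Real.exp_pos (-(c * (1 + m * h)))
        calc c * (1 + m * h) * Real.exp (-(c * (1 + m * h))) ≤
            Real.exp (c * (1 + m * h)) * Real.exp (-(c * (1 + m * h))) :=
              mul_le_mul_of_nonneg_right (by linarith) h3.le
          _ = 1 := by rw [← Real.exp_add, add_neg_cancel, Real.exp_zero]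
      have h4 : Real.exp (-(c * (1 + m * h))) * (c * m * h) ≤ 1 := by
        refine le_trans ?_ h1
        rw [mul_comm]
        exact mul_le_mul_of_nonneg_right (by nlinarith) (Real.exp_pos _).le
      have h5 := Real.exp_pos (-(c * (1 + m * h)))
      have h6 : Real.exp (-(c * (1 + m * h))) * (64 * C0) ≤ c ^ 2 * ε := by
        calc Real.exp (-(c * (1 + m * h))) * (64 * C0) ≤
            Real.exp (-(c * (1 + m * h))) * (m * (c ^ 3 * h * ε)) :=
              mul_le_mul_of_nonneg_left hm2 h5.le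
          _ = (Real.exp (-(c * (1 + m * h))) * (c * m * h)) * (c ^ 2 * ε) := by ring
          _ ≤ 1 * (c ^ 2 * ε) := mul_le_mul_of_nonneg_right h4 (by positivity)
          _ = c ^ 2 * ε := one_mul _
      have e : Real.exp (-(c * (1 + m * h))) * (C0 / c ^ 2) =
          Real.exp (-(c * (1 + m * h))) * (64 * C0) / (64 * c ^ 2) := by
        field_simp
      rw [e, div_le_iff₀ (by positivity)]
      nlinarith
    refine ⟨c, ε0, hc0, hc1, hε0', m, fun i => 1 + i * h, ?_, ?_, ?_⟩
    · intro i
      have : 0 ≤ (i : ℝ) * h := by positivity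
      linarith
    · intro i _
      push_cast
      nlinarith
    intro L H hL hH hint hnear hlow htl hup
    -- integrability
    have hint2 : IntegrableOn (fun t => H t * Real.exp (-(2 * c * t / L))) (Ioi 0) := by
      have h1 : IntegrableOn (fun t => Real.exp (-(c * t / L)) * (H t * Real.exp (-(c * t / L))))
          (Ioi 0) := by
        refine Integrable.bdd_mul (c := 1) hint ?_ ?_
        · exact (Continuous.aestronglyMeasurable (by fun_prop))
        · rw [ae_restrict_iff' measurableSet_Ioi]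
          refine ae_of_all _ fun t ht => ?_
          rw [Real.norm_eq_abs, abs_of_pos (Real.exp_pos _), Real.exp_le_one_iff]
          have : 0 ≤ c * t / L := by
            have := mem_Ioi.1 ht
            positivity
          linarith
      refine h1.congr_fun (fun t _ => ?_) measurableSet_Ioi
      simp only
      rw [mul_left_comm, ← Real.exp_add]
      congr 2
      ring
    have hintH : ∀ y : ℝ, 0 ≤ y → IntegrableOn H (Ioc 0 y) := by
      intro y hy
      have h0 : IntegrableOn (fun t => H t * Real.exp (-(c * t / L))) (Ioc 0 y) :=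
        hint.mono_set Ioc_subset_Ioi_self
      have h1 : IntegrableOn (fun t => Real.exp (c * t / L) * (H t * Real.exp (-(c * t / L))))
          (Ioc 0 y) := by
        refine Integrable.bdd_mul (c := Real.exp (c * y / L)) h0 ?_ ?_
        · exact (Continuous.aestronglyMeasurable (by fun_prop))
        · rw [ae_restrict_iff' measurableSet_Ioc]
          refine ae_of_all _ fun t ht => ?_
          rw [Real.norm_eq_abs, abs_of_pos (Real.exp_pos _), Real.exp_le_exp]
          apply div_le_div_of_nonneg_right _ hL.le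
          exact mul_le_mul_of_nonneg_left ht.2 hc0.le
      refine h1.congr_fun (fun t _ => ?_) measurableSet_Ioc
      simp only
      rw [mul_left_comm, ← Real.exp_add, add_neg_cancel, Real.exp_zero, mul_one]
    have hII : ∀ y z : ℝ, 0 ≤ y → y ≤ z → IntervalIntegrable H volume y z := by
      intro y z hy hyz
      rw [intervalIntegrable_iff_integrableOn_Ioc_of_le hyz]
      exact (hintH z (hy.trans hyz)).mono_set (Ioc_subset_Ioc_left hy)
    have hII2 : ∀ y z : ℝ, 0 ≤ y → y ≤ z →
        IntervalIntegrable (fun t => H t * Real.exp (-(2 * c * t / L))) volume y z := by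
      intro y z hy hyz
      rw [intervalIntegrable_iff_integrableOn_Ioc_of_le hyz]
      exact hint2.mono_set fun t ht => lt_of_le_of_lt hy ht.1
    -- the decomposition of the integral
    have hx0 : ∀ i : ℕ, 0 ≤ (1 + i * h) * L := by
      intro i
      positivity
    have hxm : ∀ i : ℕ, (1 + i * h) * L ≤ (1 + (i + 1 : ℕ) * h) * L := by
      intro i
      apply mul_le_mul_of_nonneg_right _ hL.le
      push_cast
      nlinarith
    have hdec : ∫ t in Ioi (0 : ℝ), H t * Real.exp (-(2 * c * t / L)) =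
        (∫ t in (0 : ℝ)..L, H t * Real.exp (-(2 * c * t / L))) +
        (∑ i ∈ Finset.range m, ∫ t in ((1 + i * h) * L)..((1 + (i + 1 : ℕ) * h) * L),
          H t * Real.exp (-(2 * c * t / L))) +
        ∫ t in Ioi ((1 + m * h) * L), H t * Real.exp (-(2 * c * t / L)) := by
      have h1 := intervalIntegral.sum_integral_adjacent_intervals (μ := volume)
        (f := fun t => H t * Real.exp (-(2 * c * t / L))) (a := fun i : ℕ => (1 + i * h) * L)
        (n := m) (fun i _ => hII2 _ _ (hx0 i) (hxm i))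
      simp only [Nat.cast_zero, zero_mul, add_zero, one_mul] at h1
      have hdj : Disjoint (Ioc 0 ((1 + m * h) * L)) (Ioi ((1 + m * h) * L)) :=
        Set.disjoint_left.2 fun t ht ht' => absurd ht.2 (not_le.2 ht')
      rw [h1, intervalIntegral.integral_add_adjacent_intervals (hII2 0 L (le_refl 0) hL.le)
        (hII2 L _ hL.le (by
          have : 0 ≤ (m : ℝ) * h * L := by positivity
          nlinarith)), intervalIntegral.integral_of_le (hx0 m),
        ← setIntegral_union hdj measurableSet_Ioi (hint2.mono_set Ioc_subset_Ioi_self)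
          (hint2.mono_set (Ioi_subset_Ioi (hx0 m))), Ioc_union_Ioi_eq_Ioi (hx0 m)]
    -- the cells
    have hcell : ∀ i : ℕ, ∫ t in ((1 + i * h) * L)..((1 + (i + 1 : ℕ) * h) * L),
        H t * Real.exp (-(2 * c * t / L)) ≤ Real.exp (-(2 * c * (1 + i * h))) *
          ∫ t in ((1 + i * h) * L)..((1 + (i + 1 : ℕ) * h) * L), H t := by
      intro i
      rw [← intervalIntegral.integral_const_mul]
      apply intervalIntegral.integral_mono_on (hxm i) (hII2 _ _ (hx0 i) (hxm i))
        ((hII _ _ (hx0 i) (hxm i)).const_mul _)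
      intro t ht
      rw [mul_comm]
      apply mul_le_mul_of_nonneg_right _ (hH t)
      rw [Real.exp_le_exp, neg_le_neg_iff, le_div_iff₀ hL]
      nlinarith [ht.1]
    -- the tail
    have htl2 : ∫ t in Ioi ((1 + m * h) * L), H t * Real.exp (-(2 * c * t / L)) ≤
        Real.exp (-(c * (1 + m * h))) * (C0 / c ^ 2) * L ^ 2 := by
      have h1 : ∫ t in Ioi ((1 + m * h) * L), H t * Real.exp (-(2 * c * t / L)) ≤
          ∫ t in Ioi ((1 + m * h) * L), Real.exp (-(c * (1 + m * h))) *
            (H t * Real.exp (-(c * t / L))) := by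
        apply setIntegral_mono_on (hint2.mono_set (Ioi_subset_Ioi (hx0 m)))
          ((hint.mono_set (Ioi_subset_Ioi (hx0 m))).const_mul _) measurableSet_Ioi
        intro t ht
        have e : Real.exp (-(2 * c * t / L)) = Real.exp (-(c * t / L)) *
            Real.exp (-(c * t / L)) := by
          rw [← Real.exp_add]
          congr 1
          ring
        rw [e, ← mul_assoc, mul_comm]
        apply mul_le_mul_of_nonneg_right _ (mul_nonneg (hH t) (Real.exp_pos _).le)
        rw [Real.exp_le_exp, neg_le_neg_iff, le_div_iff₀ hL]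
        nlinarith [mem_Ioi.1 ht]
      rw [integral_const_mul] at h1
      have h2 : ∫ t in Ioi ((1 + m * h) * L), H t * Real.exp (-(c * t / L)) ≤
          ∫ t in Ioi (0 : ℝ), H t * Real.exp (-(c * t / L)) := by
        apply setIntegral_mono_set hint
        · exact ae_of_all _ fun t => mul_nonneg (hH t) (Real.exp_pos _).le
        · exact (Ioi_subset_Ioi (hx0 m)).eventuallyLE
      calc _ ≤ _ := h1
        _ ≤ Real.exp (-(c * (1 + m * h))) * (C0 / c ^ 2 * L ^ 2) :=
          mul_le_mul_of_nonneg_left (h2.trans htl) (Real.exp_pos _).le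
        _ = _ := by ring
    -- the indices
    obtain ⟨p, hp1, hp2⟩ : ∃ p : ℕ, a - 1 ≤ p * h ∧ p * h < a - 1 + h := by
      refine ⟨⌈(a - 1) / h⌉₊, ?_, ?_⟩
      · rw [← div_le_iff₀ hh0]
        exact Nat.le_ceil _
      · have h1 := Nat.ceil_lt_add_one (a := (a - 1) / h) (by
          apply div_nonneg _ hh0.le
          linarith)
        calc (⌈(a - 1) / h⌉₊ : ℝ) * h < ((a - 1) / h + 1) * h :=
              mul_lt_mul_of_pos_right h1 hh0
          _ = a - 1 + h := by field_simp
    obtain ⟨q, hq1, hq2⟩ : ∃ q : ℕ, q * h ≤ b - 1 ∧ b - 1 - h < q * h := by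
      refine ⟨⌊(b - 1) / h⌋₊, ?_, ?_⟩
      · rw [← le_div_iff₀ hh0]
        exact Nat.floor_le (div_nonneg (by linarith) hh0.le)
      · have h1 := Nat.lt_floor_add_one ((b - 1) / h)
        have h2 : (b - 1) / h * h < (⌊(b - 1) / h⌋₊ + 1) * h := mul_lt_mul_of_pos_right h1 hh0
        have h3 : (b - 1) / h * h = b - 1 := by field_simp
        nlinarith
    have hpq : p ≤ q := by
      have : (p : ℝ) * h ≤ q * h := by nlinarith
      exact_mod_cast le_of_mul_le_mul_right this hh0
    have hqm : q ≤ m := by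
      have : (q : ℝ) * h ≤ m * h := by linarith
      exact_mod_cast le_of_mul_le_mul_right this hh0
    obtain ⟨w, hw⟩ : ∃ w : ℕ → ℝ, w = fun i : ℕ =>
      (∫ t in ((1 + i * h) * L)..((1 + (i + 1 : ℕ) * h) * L), H t) / L ^ 2 := ⟨_, rfl⟩
    have hL2 : 0 < L ^ 2 := by positivity
    have hwL : ∀ i, w i * L ^ 2 =
        ∫ t in ((1 + i * h) * L)..((1 + (i + 1 : ℕ) * h) * L), H t := by
      intro i
      rw [hw]
      simp only
      field_simp
    have hwle : ∀ i, i < m → w i ≤ h + ε0 := by
      intro i hi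
      have h1 := hup i hi
      rw [← hwL i] at h1
      have h2 := le_of_mul_le_mul_right h1 hL2
      push_cast at h2
      linarith
    have hce := cells m p q hpq hqm (fun i => Real.exp (-(2 * c * (1 + i * h)))) w h ε0
      (Real.exp (-(2 * c * b))) (Real.exp_pos _).le (fun i _ => (Real.exp_pos _).le)
      (fun i _ => by
        rw [Real.exp_le_one_iff]
        have : 0 ≤ 2 * c * (1 + i * h) := by positivity
        linarith) hε0'.le
      (fun i hi => by
        rw [Real.exp_le_exp, neg_le_neg_iff]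
        have h1 : (i : ℝ) * h ≤ q * h :=
          mul_le_mul_of_nonneg_right (by exact_mod_cast hi.le) hh0.le
        have h2 : 1 + (i : ℝ) * h ≤ b := by linarith
        exact mul_le_mul_of_nonneg_left h2 (by positivity)) hwle
    -- the total
    have hsumcell : ∑ i ∈ Finset.range m, ∫ t in ((1 + i * h) * L)..((1 + (i + 1 : ℕ) * h) * L),
        H t * Real.exp (-(2 * c * t / L)) ≤
        (∑ i ∈ Finset.range m, Real.exp (-(2 * c * (1 + i * h))) * w i) * L ^ 2 := by
      rw [Finset.sum_mul]
      apply Finset.sum_le_sum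
      intro i _
      rw [mul_assoc, hwL i]
      exact hcell i
    have hg := geom_le c h hc0 hh0 hch m
    have hmain := main_le c h hc0 hh0 hch
    rw [near_int c hc0] at hnear
    have htot : (1 / (2 * c) - 1 / 2 - ε0) * L ^ 2 ≤
        (((1 - Real.exp (-(2 * c)) * (1 + 2 * c)) / (4 * c ^ 2) + ε0) +
          (∑ i ∈ Finset.range m, Real.exp (-(2 * c * (1 + i * h))) * w i) +
          Real.exp (-(c * (1 + m * h))) * (C0 / c ^ 2)) * L ^ 2 := by
      calc (1 / (2 * c) - 1 / 2 - ε0) * L ^ 2 ≤ _ := hlow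
        _ = _ := hdec
        _ ≤ ((1 - Real.exp (-(2 * c)) * (1 + 2 * c)) / (4 * c ^ 2) + ε0) * L ^ 2 +
            (∑ i ∈ Finset.range m, Real.exp (-(2 * c * (1 + i * h))) * w i) * L ^ 2 +
            Real.exp (-(c * (1 + m * h))) * (C0 / c ^ 2) * L ^ 2 :=
          add_le_add (add_le_add hnear hsumcell) htl2
        _ = _ := by ring
    have htot' := le_of_mul_le_mul_right htot hL2
    have hkey : Real.exp (-(2 * c * b)) * ((q - p) * h - ∑ i ∈ Finset.Ico p q, w i) ≤ ε / 16 := by
      linarith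
    have hexp : 1 / 8 ≤ Real.exp (-(2 * c * b)) := by
      have h1 : Real.exp (-2) ≤ Real.exp (-(2 * c * b)) := by
        rw [Real.exp_le_exp]
        linarith
      refine le_trans ?_ h1
      rw [Real.exp_neg, one_div]
      apply inv_anti₀ (Real.exp_pos _)
      have h2 : Real.exp 2 = Real.exp 1 * Real.exp 1 := by
        rw [← Real.exp_add]
        norm_num
      have h3 := Real.exp_one_lt_d9
      have h4 := Real.exp_pos 1
      rw [h2]
      nlinarith
    have hS : b - a - ε ≤ ∑ i ∈ Finset.Ico p q, w i := by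
      by_contra hlt
      push Not at hlt
      have h1 : ε / 2 < (q - p) * h - ∑ i ∈ Finset.Ico p q, w i := by
        have e1 : ((q : ℝ) - p) * h = q * h - p * h := by ring
        rw [e1]
        linarith
      have h2 : 1 / 8 * ((q - p) * h - ∑ i ∈ Finset.Ico p q, w i) ≤
          Real.exp (-(2 * c * b)) * ((q - p) * h - ∑ i ∈ Finset.Ico p q, w i) :=
        mul_le_mul_of_nonneg_right hexp (by linarith)
      linarith
    -- the window
    have hsumIco : (∑ i ∈ Finset.Ico p q, w i) * L ^ 2 =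
        ∫ t in ((1 + p * h) * L)..((1 + q * h) * L), H t := by
      rw [Finset.sum_mul, ← intervalIntegral.sum_integral_adjacent_intervals_Ico (μ := volume)
        (a := fun i : ℕ => (1 + i * h) * L) hpq (fun i _ => hII _ _ (hx0 i) (hxm i))]
      apply Finset.sum_congr rfl
      intro i _
      exact hwL i
    have hwin : ∫ t in ((1 + p * h) * L)..((1 + q * h) * L), H t ≤
        ∫ t in (a * L)..(b * L), H t := by
      have hpL : a * L ≤ (1 + p * h) * L := mul_le_mul_of_nonneg_right (by linarith) hL.le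
      have hqL : (1 + q * h) * L ≤ b * L := mul_le_mul_of_nonneg_right (by linarith) hL.le
      have hpqL : (1 + p * h) * L ≤ (1 + q * h) * L := by
        apply mul_le_mul_of_nonneg_right _ hL.le
        have : (p : ℝ) * h ≤ q * h :=
          mul_le_mul_of_nonneg_right (by exact_mod_cast hpq) hh0.le
        linarith
      have haL : 0 ≤ a * L := by positivity
      apply intervalIntegral.integral_mono_interval hpL hpqL hqL
      · exact ae_of_all _ fun t => hH t
      · exact hII _ _ haL (hpL.trans (hpqL.trans hqL))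
    calc (b - a - ε) * L ^ 2 ≤ (∑ i ∈ Finset.Ico p q, w i) * L ^ 2 :=
          mul_le_mul_of_nonneg_right hS hL2.le
      _ = _ := hsumIco
      _ ≤ _ := hwin

end Pool.Agent.Q237.HV
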