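import Pool.Agent.Q237.HV.PO

/-! # Project HV, job PL -/

set_option autoImplicit false

namespace Pool.Agent.Q237.HV

open MeasureTheory Filter Topology Set Complex FourierTransform
open Pool.Agent.Q253.HV
open scoped ENNReal ComplexConjugate

theorem conj_vv (σ t : ℝ) : conj (vv σ t) = vv σ t := by
  unfold vv
  by_cases ht : t ∈ Ioi (0 : ℝ)
  · rw [indicator_of_mem ht, ← Complex.exp_conj]
    congr 1
    simp only [map_mul, map_neg, Complex.conj_ofReal]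
  · rw [indicator_of_notMem ht, map_zero]

theorem four_cont (v : ℝ → ℂ) (hv : Integrable v) : Continuous (𝓕 v) := by
  have := VectorFourier.fourierIntegral_continuous (L := innerₗ ℝ) Real.continuous_fourierChar
    continuous_inner hv
  exact this

theorem conj_four_vv (σ ξ : ℝ) :
    conj (𝓕 (vv σ) ξ) = ∫ t, vv σ t * cexp ((2 * Real.pi * ξ * t : ℝ) * I) := by
  rw [Real.fourier_real_eq_integral_exp_smul, ← integral_conj]
  congr 1
  funext t
  rw [smul_eq_mul, map_mul, conj_vv, mul_comm, ← Complex.exp_conj]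
  congr 2
  rw [map_mul, Complex.conj_ofReal, Complex.conj_I]
  push_cast
  ring

theorem four_vv_le (σ : ℝ) (ξ : ℝ) : ‖𝓕 (vv σ) ξ‖ ≤ ∫ t, ‖vv σ t‖ := by
  rw [Real.fourier_real_eq_integral_exp_smul]
  refine (norm_integral_le_integral_norm _).trans (le_of_eq ?_)
  congr 1
  funext t
  rw [norm_smul, Complex.norm_exp_ofReal_mul_I, one_mul]

theorem sq_conj_int (f : ℝ → ℂ) (hf : Adm f) (σ : ℝ) (hσ : 1 / 2 < σ) :
    Integrable fun ξ => 𝓕 (uu f σ) ξ * 𝓕 (uu f σ) ξ * conj (𝓕 (vv σ) ξ) := by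
  have hu1 := uu1 f hf σ hσ
  have hu2 := uu2 f hf σ hσ
  have hv1 := vv1 σ (by linarith)
  have h1 : Integrable fun ξ => conj (𝓕 (vv σ) ξ) * (𝓕 (uu f σ) ξ * 𝓕 (uu f σ) ξ) := by
    refine Integrable.bdd_mul (c := ∫ t, ‖vv σ t‖) (pars2_int _ _ hu1 hu2 hu1 hu2) ?_ ?_
    · exact (Complex.continuous_conj.comp (four_cont _ hv1)).aestronglyMeasurable
    · refine ae_of_all _ fun ξ => ?_
      rw [RCLike.norm_conj]
      exact four_vv_le σ ξ
  refine h1.congr (ae_of_all _ fun ξ => ?_)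
  simp only
  ring

theorem phase_meas : Continuous fun p : ℝ × ℝ =>
    cexp ((2 * Real.pi * p.1 * p.2 : ℝ) * I) := by
  fun_prop

theorem K_eq (f : ℝ → ℂ) (hf : Adm f) (σ : ℝ) (hσ : 1 / 2 < σ) :
    ∫ ξ, 𝓕 (uu f σ) ξ * 𝓕 (uu f σ) ξ * conj (𝓕 (vv σ) ξ) =
      lap f ((σ + σ : ℝ) : ℂ) ^ 2 := by
  have hσ0 : 0 < σ := by linarith
  have hu1 := uu1 f hf σ hσ
  have hu2 := uu2 f hf σ hσ
  have hv1 := vv1 σ hσ0
  have hv2 := vv2 σ hσ0
  -- first Fubini
  have h1 : ∀ ξ, 𝓕 (uu f σ) ξ * 𝓕 (uu f σ) ξ * conj (𝓕 (vv σ) ξ) =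
      ∫ t, 𝓕 (uu f σ) ξ * 𝓕 (uu f σ) ξ * (vv σ t * cexp ((2 * Real.pi * ξ * t : ℝ) * I)) := by
    intro ξ
    rw [conj_four_vv, integral_const_mul]
  have hprod : Integrable (Function.uncurry fun ξ t : ℝ =>
      𝓕 (uu f σ) ξ * 𝓕 (uu f σ) ξ * (vv σ t * cexp ((2 * Real.pi * ξ * t : ℝ) * I)))
      (volume.prod volume) := by
    have h2 : Integrable (fun p : ℝ × ℝ => 𝓕 (uu f σ) p.1 * 𝓕 (uu f σ) p.1 * vv σ p.2)
        (volume.prod volume) :=
      Integrable.mul_prod (pars2_int _ _ hu1 hu2 hu1 hu2) hv1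
    have h3 : Integrable (fun p : ℝ × ℝ => cexp ((2 * Real.pi * p.1 * p.2 : ℝ) * I) *
        (𝓕 (uu f σ) p.1 * 𝓕 (uu f σ) p.1 * vv σ p.2)) (volume.prod volume) := by
      refine Integrable.bdd_mul (c := 1) h2 phase_meas.aestronglyMeasurable
        (ae_of_all _ fun p => ?_)
      rw [Complex.norm_exp_ofReal_mul_I]
    refine h3.congr (ae_of_all _ fun p => ?_)
    simp only [Function.uncurry]
    ring
  simp_rw [h1]
  rw [integral_integral_swap hprod]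
  have h4 : ∀ t : ℝ, ∫ ξ, 𝓕 (uu f σ) ξ * 𝓕 (uu f σ) ξ *
      (vv σ t * cexp ((2 * Real.pi * ξ * t : ℝ) * I)) =
      ∫ x, (uu f σ x * vv σ x) * (uu f σ (t - x) * vv σ (t - x)) := by
    intro t
    have h5 := pars2 _ _ hu1 hu2 hu1 hu2 t
    have h6 : ∫ ξ, 𝓕 (uu f σ) ξ * 𝓕 (uu f σ) ξ *
        (vv σ t * cexp ((2 * Real.pi * ξ * t : ℝ) * I)) =
        vv σ t * ∫ ξ, 𝓕 (uu f σ) ξ * 𝓕 (uu f σ) ξ * cexp ((2 * Real.pi * ξ * t : ℝ) * I) := by
      rw [← integral_const_mul]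
      congr 1
      funext ξ
      ring
    rw [h6, h5, ← integral_const_mul]
    congr 1
    funext x
    by_cases hx : x ∈ Ioi (0 : ℝ)
    · by_cases hy : t - x ∈ Ioi (0 : ℝ)
      · have ht : t ∈ Ioi (0 : ℝ) := by
          rw [mem_Ioi] at hx hy ⊢
          linarith
        have e : vv σ t = vv σ x * vv σ (t - x) := by
          unfold vv
          rw [indicator_of_mem ht, indicator_of_mem hx, indicator_of_mem hy, ← Complex.exp_add]
          congr 1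
          push_cast
          ring
        rw [e]
        ring
      · have e : uu f σ (t - x) = 0 := by
          unfold uu
          rw [indicator_of_notMem hy]
        rw [e]
        ring
    · have e : uu f σ x = 0 := by
        unfold uu
        rw [indicator_of_notMem hx]
      rw [e]
      ring
  simp_rw [h4]
  have hU : Integrable fun x => uu f σ x * vv σ x := int_mul hu2 hv2
  have h7 := integral_convolution (L := ContinuousLinearMap.mul ℂ ℂ) (μ := volume) (ν := volume)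
    hU hU
  have h8 : ∀ t : ℝ, convolution (fun x => uu f σ x * vv σ x) (fun x => uu f σ x * vv σ x)
      (ContinuousLinearMap.mul ℂ ℂ) volume t =
      ∫ x, (uu f σ x * vv σ x) * (uu f σ (t - x) * vv σ (t - x)) := by
    intro t
    rfl
  simp_rw [h8] at h7
  rw [h7, ContinuousLinearMap.mul_apply', lap_add, sq]
  have h9 : ∀ t, conj (vv σ t) = vv σ t := conj_vv σ
  simp_rw [h9]

theorem A_eq (f : ℝ → ℂ) (σ : ℝ) :
    ((∫ t in Ioi (0 : ℝ), ‖f t‖ ^ 2 * Real.exp (-(2 * σ * t)) : ℝ) : ℂ) =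
      ∫ x, uu f σ x * conj (uu f σ x) := by
  rw [← integral_indicator measurableSet_Ioi, ← integral_complex_ofReal]
  congr 1
  funext t
  by_cases ht : t ∈ Ioi (0 : ℝ)
  · unfold uu
    rw [indicator_of_mem ht, indicator_of_mem ht, Complex.mul_conj, Complex.normSq_eq_norm_sq,
      norm_mul, mul_pow, norm_ex, ← Real.exp_nat_mul]
    congr 3
    push_cast
    ring
  · unfold uu
    rw [indicator_of_notMem ht, indicator_of_notMem ht]
    simp

/-- **Job HV-PL.** -/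
theorem t_PL : S_PL := by
  intro f hf σ hσ
  have hσ0 : 0 < σ := by linarith
  have hu1 := uu1 f hf σ hσ
  have hu2 := uu2 f hf σ hσ
  have hσ' : (σ : ℂ) ≠ 0 := by exact_mod_cast hσ0.ne'
  obtain ⟨H, hH⟩ : ∃ H : ℝ → ℂ, H = fun ξ =>
    (1 / 2 : ℂ) * (𝓕 (uu f σ) ξ * conj (𝓕 (uu f σ) ξ)) + (-(1 / 2 : ℂ) * (𝓕 (uu f σ) ξ *
      𝓕 (uu f σ) ξ) + (σ : ℂ) * (𝓕 (uu f σ) ξ * 𝓕 (uu f σ) ξ * conj (𝓕 (vv σ) ξ))) := ⟨_, rfl⟩
  have i1 := (pars_int _ _ hu1 hu2 hu1 hu2).const_mul (1 / 2 : ℂ)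
  have i2 := (pars2_int _ _ hu1 hu2 hu1 hu2).const_mul (-(1 / 2) : ℂ)
  have i3 := (sq_conj_int f hf σ hσ).const_mul (σ : ℂ)
  have hHi : Integrable H := by
    rw [hH]
    exact i1.add (i2.add i3)
  have hpt : ∀ y : ℝ, (ld f (pt σ y)).re ^ 2 / (σ ^ 2 + y ^ 2) = (H (y / (2 * Real.pi))).re := by
    intro y
    have h1 : H (y / (2 * Real.pi)) = ((1 / 2 : ℂ) * (ld f (pt σ y) * conj (ld f (pt σ y))) +
        (1 / 2 : ℂ) * (ld f (pt σ y) * ld f (pt σ y))) / ((σ ^ 2 + y ^ 2 : ℝ) : ℂ) := by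
      rw [hH]
      simp only
      rw [four_vv σ y hσ0, ← lap_pt, map_inv₀, ← pt_mul_conj]
      have h2 := pt_ne σ y hσ0
      have h3 : conj (pt σ y) ≠ 0 := by
        intro h
        exact h2 ((map_eq_zero _).1 h)
      unfold ld
      have h4 : (σ : ℂ) = (pt σ y + conj (pt σ y)) / 2 := by
        rw [conj_pt]
        unfold pt
        ring
      rw [map_mul, map_neg]
      have h5 : (σ : ℂ) * (lap f (pt σ y) * lap f (pt σ y) * (conj (pt σ y))⁻¹) =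
          (pt σ y + conj (pt σ y)) / 2 * (lap f (pt σ y) * lap f (pt σ y) * (conj (pt σ y))⁻¹) := by
        rw [← h4]
      rw [h5]
      field_simp
      ring
    rw [h1, Complex.div_ofReal_re]
    congr 1
    rw [Complex.mul_conj]
    have h6 : (1 / 2 : ℂ) = ((1 / 2 : ℝ) : ℂ) := by push_cast; rfl
    rw [h6, Complex.add_re, Complex.re_ofReal_mul, Complex.re_ofReal_mul, Complex.ofReal_re,
      Complex.normSq_apply, Complex.mul_re]
    ring
  have h0 : ∫ ξ, 𝓕 (uu f σ) ξ * 𝓕 (uu f σ) ξ = 0 := by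
    have h1 := pars2 _ _ hu1 hu2 hu1 hu2 0
    have h2 : ∀ ξ : ℝ, 𝓕 (uu f σ) ξ * 𝓕 (uu f σ) ξ * cexp ((2 * Real.pi * ξ * 0 : ℝ) * I) =
        𝓕 (uu f σ) ξ * 𝓕 (uu f σ) ξ := by
      intro ξ
      rw [mul_zero]
      simp
    simp_rw [h2] at h1
    rw [h1]
    have h3 : ∀ x, uu f σ x * uu f σ (0 - x) = 0 := uv_zero f σ _ (fun x hx => by
      unfold uu
      rw [indicator_of_notMem (by simpa using hx)])
    simp_rw [h3]
    simp
  have hI : ∫ ξ, H ξ = (1 / 2 : ℂ) *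
      ((∫ t in Ioi (0 : ℝ), ‖f t‖ ^ 2 * Real.exp (-(2 * σ * t)) : ℝ) : ℂ) +
        (σ : ℂ) * lap f ((σ + σ : ℝ) : ℂ) ^ 2 := by
    have i23 : Integrable (fun ξ => -(1 / 2 : ℂ) * (𝓕 (uu f σ) ξ * 𝓕 (uu f σ) ξ) +
        (σ : ℂ) * (𝓕 (uu f σ) ξ * 𝓕 (uu f σ) ξ * conj (𝓕 (vv σ) ξ))) := i2.add i3
    rw [hH, integral_add i1 i23, integral_add i2 i3, integral_const_mul,
      integral_const_mul, integral_const_mul, h0, pars _ _ hu1 hu2 hu1 hu2, ← A_eq,
      K_eq f hf σ hσ]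
    ring
  have hsi := integrable_scale hHi
  refine ⟨?_, ?_⟩
  · have h1 : Integrable fun y : ℝ => (H (y / (2 * Real.pi))).re := hsi.re
    refine h1.congr (ae_of_all _ fun y => ?_)
    exact (hpt y).symm
  · have h1 : ∫ y : ℝ, (ld f (pt σ y)).re ^ 2 / (σ ^ 2 + y ^ 2) =
        ∫ y : ℝ, (H (y / (2 * Real.pi))).re := by
      congr 1
      funext y
      exact hpt y
    rw [h1, re_int hsi, int_scale, hI]
    unfold ld
    have h2 : (2 * Real.pi : ℂ) * ((1 / 2 : ℂ) *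
        ((∫ t in Ioi (0 : ℝ), ‖f t‖ ^ 2 * Real.exp (-(2 * σ * t)) : ℝ) : ℂ) +
        (σ : ℂ) * lap f ((σ + σ : ℝ) : ℂ) ^ 2) =
        ((Real.pi * ∫ t in Ioi (0 : ℝ), ‖f t‖ ^ 2 * Real.exp (-(2 * σ * t)) : ℝ) : ℂ) +
          ((2 * Real.pi * σ : ℝ) : ℂ) * lap f ((σ + σ : ℝ) : ℂ) ^ 2 := by
      push_cast
      ring
    have h3 : (-((2 * σ : ℝ) : ℂ) * lap f ((2 * σ : ℝ) : ℂ)) ^ 2 =
        (((2 * σ) ^ 2 : ℝ) : ℂ) * lap f ((σ + σ : ℝ) : ℂ) ^ 2 := by
      rw [two_mul]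
      push_cast
      ring
    rw [h2, h3, Complex.add_re, Complex.re_ofReal_mul, Complex.re_ofReal_mul, Complex.ofReal_re]
    have := Real.pi_ne_zero
    field_simp
    ring

end Pool.Agent.Q237.HV
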