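import Pool.Agent.Q253.HV.Stm
import Pool.Agent.H153R4.Pl

/-! # Project HV: the theorem of Parseval for Laplace transforms on vertical lines -/

set_option autoImplicit false

namespace Pool.Agent.Q237.HV

open MeasureTheory Filter Topology Set Complex FourierTransform
open Pool.Agent.Q253.HV
open Pool.Agent.H153R4 (fourier_ae_eq)
open scoped ENNReal ComplexConjugate

theorem memLp_fourier (u : ℝ → ℂ) (hu1 : Integrable u) (hu2 : MemLp u 2) : MemLp (𝓕 u) 2 :=
  (memLp_congr_ae (fourier_ae_eq u hu1 hu2)).mp (Lp.memLp _)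

theorem memLp_conj {u : ℝ → ℂ} (hu : MemLp u 2) : MemLp (fun x => conj (u x)) 2 := by
  have := hu.star
  exact this

theorem int_mul {u v : ℝ → ℂ} (hu : MemLp u 2) (hv : MemLp v 2) :
    Integrable fun x => u x * v x := by
  have := MemLp.integrable_mul (p := 2) (q := 2) hu hv
  exact this

/-- Parseval -/
theorem pars (u v : ℝ → ℂ) (hu1 : Integrable u) (hu2 : MemLp u 2) (hv1 : Integrable v)
    (hv2 : MemLp v 2) :
    ∫ ξ, 𝓕 u ξ * conj (𝓕 v ξ) = ∫ x, u x * conj (v x) := by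
  have hU := fourier_ae_eq u hu1 hu2
  have hV := fourier_ae_eq v hv1 hv2
  have h := Lp.inner_fourier_eq (hv2.toLp v) (hu2.toLp u)
  rw [L2.inner_def, L2.inner_def] at h
  have e1 : ∫ ξ, 𝓕 u ξ * conj (𝓕 v ξ) =
      ∫ ξ, inner ℂ ((𝓕 (hv2.toLp v) : Lp ℂ 2 (volume : Measure ℝ)) ξ)
        ((𝓕 (hu2.toLp u) : Lp ℂ 2 (volume : Measure ℝ)) ξ) := by
    apply integral_congr_ae
    filter_upwards [hU, hV] with ξ h1 h2
    rw [h1, h2, RCLike.inner_apply]
  have e2 : ∫ x, u x * conj (v x) =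
      ∫ x, inner ℂ ((hv2.toLp v : Lp ℂ 2 (volume : Measure ℝ)) x)
        ((hu2.toLp u : Lp ℂ 2 (volume : Measure ℝ)) x) := by
    apply integral_congr_ae
    filter_upwards [hu2.coeFn_toLp, hv2.coeFn_toLp] with ξ h1 h2
    rw [h1, h2, RCLike.inner_apply]
  rw [e1, e2]
  exact h

theorem pars_int (u v : ℝ → ℂ) (hu1 : Integrable u) (hu2 : MemLp u 2) (hv1 : Integrable v)
    (hv2 : MemLp v 2) : Integrable fun ξ => 𝓕 u ξ * conj (𝓕 v ξ) :=
  int_mul (memLp_fourier u hu1 hu2) (memLp_conj (memLp_fourier v hv1 hv2))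

/-- the product of two transforms, with a translation -/
theorem pars2 (u v : ℝ → ℂ) (hu1 : Integrable u) (hu2 : MemLp u 2) (hv1 : Integrable v)
    (hv2 : MemLp v 2) (t : ℝ) :
    ∫ ξ, 𝓕 u ξ * 𝓕 v ξ * cexp ((2 * Real.pi * ξ * t : ℝ) * I) = ∫ x, u x * v (t - x) := by
  have hw1 : Integrable fun x => conj (v (t - x)) := by
    have h1 : Integrable fun x => v (t - x) := hv1.comp_sub_left t
    exact (LinearIsometryEquiv.integrable_comp_iff (μ := volume) Complex.conjLIE).2 h1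
  have hw2 : MemLp (fun x => conj (v (t - x))) 2 := by
    apply memLp_conj
    exact hv2.comp_measurePreserving (Measure.measurePreserving_sub_left volume t)
  have h := pars u (fun x => conj (v (t - x))) hu1 hu2 hw1 hw2
  have e1 : ∀ ξ, 𝓕 (fun x => conj (v (t - x))) ξ =
      cexp ((-(2 * Real.pi * ξ * t) : ℝ) * I) * conj (𝓕 v ξ) := by
    intro ξ
    rw [Real.fourier_real_eq_integral_exp_smul, Real.fourier_real_eq_integral_exp_smul]
    have h1 := integral_sub_left_eq_self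
      (fun r : ℝ => cexp (((-2 * Real.pi * (t - r) * ξ : ℝ) : ℂ) * I) • conj (v r)) volume t
    have h2 : ∫ x : ℝ, cexp (((-2 * Real.pi * x * ξ : ℝ) : ℂ) * I) • conj (v (t - x)) =
        ∫ x : ℝ, cexp (((-2 * Real.pi * (t - (t - x)) * ξ : ℝ) : ℂ) * I) • conj (v (t - x)) := by
      congr 1
      funext x
      rw [sub_sub_cancel]
    rw [h2, h1, ← integral_conj, ← integral_const_mul]
    congr 1
    funext r
    rw [smul_eq_mul, smul_eq_mul, map_mul, ← mul_assoc]
    congr 1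
    rw [← Complex.exp_conj, ← Complex.exp_add]
    congr 1
    rw [map_mul, Complex.conj_ofReal, Complex.conj_I]
    push_cast
    ring
  have e2 : ∀ ξ, 𝓕 u ξ * conj (𝓕 (fun x => conj (v (t - x))) ξ) =
      𝓕 u ξ * 𝓕 v ξ * cexp ((2 * Real.pi * ξ * t : ℝ) * I) := by
    intro ξ
    rw [e1 ξ, map_mul, Complex.conj_conj, ← Complex.exp_conj, map_mul, Complex.conj_ofReal,
      Complex.conj_I]
    have : ((-(2 * Real.pi * ξ * t) : ℝ) : ℂ) * -I = ((2 * Real.pi * ξ * t : ℝ) : ℂ) * I := by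
      push_cast
      ring
    rw [this]
    ring
  simp_rw [e2] at h
  rw [h]
  congr 1
  funext x
  rw [Complex.conj_conj]

theorem pars2_int (u v : ℝ → ℂ) (hu1 : Integrable u) (hu2 : MemLp u 2) (hv1 : Integrable v)
    (hv2 : MemLp v 2) : Integrable fun ξ => 𝓕 u ξ * 𝓕 v ξ :=
  int_mul (memLp_fourier u hu1 hu2) (memLp_fourier v hv1 hv2)

/-- `f(t) e^(-σt)` for `t > 0` -/
noncomputable def uu (f : ℝ → ℂ) (σ : ℝ) : ℝ → ℂ :=
  (Ioi (0 : ℝ)).indicator fun t => f t * cexp (-(σ : ℂ) * t)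

/-- `e^(-σt)` for `t > 0` -/
noncomputable def vv (σ : ℝ) : ℝ → ℂ := (Ioi (0 : ℝ)).indicator fun t => cexp (-(σ : ℂ) * t)

theorem norm_ex (σ t : ℝ) : ‖cexp (-(σ : ℂ) * t)‖ = Real.exp (-(σ * t)) := by
  rw [Complex.norm_exp]
  congr 1
  simp

theorem ex_mem (σ : ℝ) (hσ : 0 < σ) :
    MemLp (fun t : ℝ => cexp (-(σ : ℂ) * t)) 2 (volume.restrict (Ioi (0 : ℝ))) := by
  have hm : AEStronglyMeasurable (fun t : ℝ => cexp (-(σ : ℂ) * t))
      (volume.restrict (Ioi (0 : ℝ))) := by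
    refine Continuous.aestronglyMeasurable ?_
    fun_prop
  rw [memLp_two_iff_integrable_sq_norm hm]
  have h1 : IntegrableOn (fun t : ℝ => Real.exp (-(2 * σ) * t)) (Ioi 0) :=
    exp_neg_integrableOn_Ioi 0 (by positivity)
  refine h1.congr (ae_of_all _ fun t => ?_)
  simp only
  rw [norm_ex, ← Real.exp_nat_mul]
  congr 1
  push_cast
  ring

theorem uu_mem (f : ℝ → ℂ) (hf : Adm f) (σ : ℝ) (hσ : 1 / 2 < σ) :
    MemLp (fun t : ℝ => f t * cexp (-(σ : ℂ) * t)) 2 (volume.restrict (Ioi (0 : ℝ))) := by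
  have hm : AEStronglyMeasurable (fun t : ℝ => f t * cexp (-(σ : ℂ) * t))
      (volume.restrict (Ioi (0 : ℝ))) := by
    refine hf.1.mul (Continuous.aestronglyMeasurable ?_)
    fun_prop
  rw [memLp_two_iff_integrable_sq_norm hm]
  refine (hf.2 σ hσ).congr (ae_of_all _ fun t => ?_)
  simp only
  rw [norm_mul, mul_pow, norm_ex, ← Real.exp_nat_mul]
  congr 2
  push_cast
  ring

theorem uu2 (f : ℝ → ℂ) (hf : Adm f) (σ : ℝ) (hσ : 1 / 2 < σ) : MemLp (uu f σ) 2 :=
  (memLp_indicator_iff_restrict measurableSet_Ioi).2 (uu_mem f hf σ hσ)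

theorem vv2 (σ : ℝ) (hσ : 0 < σ) : MemLp (vv σ) 2 :=
  (memLp_indicator_iff_restrict measurableSet_Ioi).2 (ex_mem σ hσ)

theorem uu1 (f : ℝ → ℂ) (hf : Adm f) (σ : ℝ) (hσ : 1 / 2 < σ) : Integrable (uu f σ) := by
  unfold uu
  rw [integrable_indicator_iff measurableSet_Ioi]
  obtain ⟨τ, h1, h2⟩ := exists_between hσ
  have h3 := MemLp.integrable_mul (p := 2) (q := 2) (uu_mem f hf τ h1)
    (ex_mem (σ - τ) (by linarith))
  refine Integrable.congr h3 (ae_of_all _ fun t => ?_)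
  simp only [Pi.mul_apply]
  rw [mul_assoc, ← Complex.exp_add]
  congr 2
  push_cast
  ring

theorem vv1 (σ : ℝ) (hσ : 0 < σ) : Integrable (vv σ) := by
  unfold vv
  rw [integrable_indicator_iff measurableSet_Ioi]
  have h3 := MemLp.integrable_mul (p := 2) (q := 2) (ex_mem (σ / 2) (by linarith))
    (ex_mem (σ / 2) (by linarith))
  refine Integrable.congr h3 (ae_of_all _ fun t => ?_)
  simp only [Pi.mul_apply]
  rw [← Complex.exp_add]
  congr 1
  push_cast
  ring

theorem lap_pt (f : ℝ → ℂ) (τ y : ℝ) : lap f (pt τ y) = 𝓕 (uu f τ) (y / (2 * Real.pi)) := by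
  rw [Real.fourier_real_eq_integral_exp_smul]
  unfold lap uu
  rw [← integral_indicator measurableSet_Ioi]
  congr 1
  funext t
  by_cases ht : t ∈ Ioi (0 : ℝ)
  · rw [indicator_of_mem ht, indicator_of_mem ht, smul_eq_mul, mul_left_comm, ← Complex.exp_add]
    congr 2
    have h0 : (Real.pi : ℂ) ≠ 0 := by exact_mod_cast Real.pi_ne_zero
    unfold pt
    push_cast
    field_simp
    ring
  · rw [indicator_of_notMem ht, indicator_of_notMem ht, smul_zero]

theorem lap_add (f : ℝ → ℂ) (τ σ : ℝ) :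
    lap f ((σ + τ : ℝ) : ℂ) = ∫ t, uu f τ t * conj (vv σ t) := by
  unfold lap uu vv
  rw [← integral_indicator measurableSet_Ioi]
  congr 1
  funext t
  by_cases ht : t ∈ Ioi (0 : ℝ)
  · rw [indicator_of_mem ht, indicator_of_mem ht, indicator_of_mem ht, ← Complex.exp_conj,
      mul_assoc, ← Complex.exp_add]
    congr 2
    simp only [map_mul, map_neg, Complex.conj_ofReal]
    push_cast
    ring
  · rw [indicator_of_notMem ht, indicator_of_notMem ht, indicator_of_notMem ht, zero_mul]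

theorem pt_ne (σ y : ℝ) (hσ : 0 < σ) : pt σ y ≠ 0 := by
  intro h
  have := congrArg Complex.re h
  simp [pt] at this
  linarith

theorem four_vv (σ y : ℝ) (hσ : 0 < σ) : 𝓕 (vv σ) (y / (2 * Real.pi)) = (pt σ y)⁻¹ := by
  have h1 : vv σ = uu (fun _ => 1) σ := by
    unfold vv uu
    congr 1
    funext t
    rw [one_mul]
  rw [h1, ← lap_pt]
  unfold lap
  have hre : (-pt σ y).re < 0 := by
    simp [pt]
    exact hσ
  have h2 := integral_exp_mul_complex_Ioi hre 0
  simp only [one_mul]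
  rw [h2]
  have h3 := pt_ne σ y hσ
  simp only [ofReal_zero, mul_zero, Complex.exp_zero]
  field_simp

/-- the variable of integration `y = 2 π ξ` -/
theorem int_scale (F : ℝ → ℂ) : ∫ y : ℝ, F (y / (2 * Real.pi)) = (2 * Real.pi : ℂ) * ∫ ξ, F ξ := by
  rw [Measure.integral_comp_div, abs_of_pos (by positivity), Complex.real_smul]
  push_cast
  rfl

theorem integrable_scale {F : ℝ → ℂ} (hF : Integrable F) :
    Integrable fun y : ℝ => F (y / (2 * Real.pi)) :=
  hF.comp_div (by positivity)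

theorem re_int {F : ℝ → ℂ} (hF : Integrable F) : ∫ y, (F y).re = (∫ y, F y).re :=
  Complex.reCLM.integral_comp_comm hF

end Pool.Agent.Q237.HV
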