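import Pool.Agent.Q237.HV.PLB

/-! # Project HV, job PO -/

set_option autoImplicit false

namespace Pool.Agent.Q237.HV

open MeasureTheory Filter Topology Set Complex FourierTransform
open Pool.Agent.Q253.HV
open scoped ENNReal ComplexConjugate

theorem conj_pt (σ y : ℝ) : conj (pt σ y) = (σ : ℂ) - (y : ℂ) * I := by
  unfold pt
  simp only [map_add, map_mul, Complex.conj_ofReal, Complex.conj_I]
  ring

theorem pt_mul_conj (σ y : ℝ) : pt σ y * conj (pt σ y) = ((σ ^ 2 + y ^ 2 : ℝ) : ℂ) := by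
  rw [conj_pt]
  unfold pt
  push_cast
  linear_combination (-(y : ℂ) ^ 2) * I_sq

theorem uv_zero (f : ℝ → ℂ) (τ : ℝ) (w : ℝ → ℂ) (hw : ∀ x, x ≤ 0 → w x = 0) (x : ℝ) :
    uu f τ x * w (0 - x) = 0 := by
  by_cases hx : x ∈ Ioi (0 : ℝ)
  · rw [hw (0 - x) (by linarith [mem_Ioi.1 hx]), mul_zero]
  · unfold uu
    rw [indicator_of_notMem hx, zero_mul]

/-- **Job HV-PO.** -/
theorem t_PO : S_PO := by
  intro f hf σ τ hσ hτ
  have hu1 := uu1 f hf τ hτ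
  have hu2 := uu2 f hf τ hτ
  have hv1 := vv1 σ hσ
  have hv2 := vv2 σ hσ
  have hσ' : (σ : ℂ) ≠ 0 := by exact_mod_cast hσ.ne'
  obtain ⟨F, hF⟩ : ∃ F : ℝ → ℂ, F = fun ξ =>
    -((((τ : ℂ) + σ) / (2 * σ)) * (𝓕 (uu f τ) ξ * conj (𝓕 (vv σ) ξ)) +
      (((τ : ℂ) - σ) / (2 * σ)) * (𝓕 (uu f τ) ξ * 𝓕 (vv σ) ξ)) := ⟨_, rfl⟩
  have hFi : Integrable F := by
    rw [hF]
    exact (((pars_int _ _ hu1 hu2 hv1 hv2).const_mul _).add
      ((pars2_int _ _ hu1 hu2 hv1 hv2).const_mul _)).neg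
  have hpt : ∀ y : ℝ, (ld f (pt τ y)).re / (σ ^ 2 + y ^ 2) = (F (y / (2 * Real.pi))).re := by
    intro y
    have h1 : ld f (pt τ y) / ((σ ^ 2 + y ^ 2 : ℝ) : ℂ) = F (y / (2 * Real.pi)) := by
      rw [hF]
      simp only
      rw [four_vv σ y hσ, ← lap_pt, map_inv₀, ← pt_mul_conj]
      have h2 := pt_ne σ y hσ
      have h3 : conj (pt σ y) ≠ 0 := by
        intro h
        exact h2 ((map_eq_zero _).1 h)
      unfold ld
      have h4 : (pt τ y) = (((τ : ℂ) + σ) / (2 * σ)) * pt σ y +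
          (((τ : ℂ) - σ) / (2 * σ)) * conj (pt σ y) := by
        rw [conj_pt]
        unfold pt
        field_simp
        ring
      rw [h4]
      have h5 : lap f ((((τ : ℂ) + σ) / (2 * σ)) * pt σ y +
          (((τ : ℂ) - σ) / (2 * σ)) * conj (pt σ y)) = lap f (pt τ y) := by rw [← h4]
      rw [h5]
      field_simp
    rw [← h1, Complex.div_ofReal_re]
  have h0 : ∫ ξ, 𝓕 (uu f τ) ξ * 𝓕 (vv σ) ξ = 0 := by
    have h1 := pars2 _ _ hu1 hu2 hv1 hv2 0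
    have h2 : ∀ ξ : ℝ, 𝓕 (uu f τ) ξ * 𝓕 (vv σ) ξ * cexp ((2 * Real.pi * ξ * 0 : ℝ) * I) =
        𝓕 (uu f τ) ξ * 𝓕 (vv σ) ξ := by
      intro ξ
      rw [mul_zero]
      simp
    simp_rw [h2] at h1
    rw [h1]
    have h3 : ∀ x, uu f τ x * vv σ (0 - x) = 0 := uv_zero f τ _ (fun x hx => by
      unfold vv
      rw [indicator_of_notMem (by simpa using hx)])
    simp_rw [h3]
    simp
  have hI : ∫ ξ, F ξ = -((((τ : ℂ) + σ) / (2 * σ)) * lap f ((σ + τ : ℝ) : ℂ)) := by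
    rw [hF, integral_neg, integral_add ((pars_int _ _ hu1 hu2 hv1 hv2).const_mul _)
      ((pars2_int _ _ hu1 hu2 hv1 hv2).const_mul _), integral_const_mul, integral_const_mul, h0,
      pars _ _ hu1 hu2 hv1 hv2, ← lap_add]
    ring
  have hsi := integrable_scale hFi
  refine ⟨?_, ?_⟩
  · have h1 : Integrable fun y : ℝ => (F (y / (2 * Real.pi))).re := hsi.re
    refine h1.congr (ae_of_all _ fun y => ?_)
    exact (hpt y).symm
  · have h1 : ∫ y : ℝ, (ld f (pt τ y)).re / (σ ^ 2 + y ^ 2) =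
        ∫ y : ℝ, (F (y / (2 * Real.pi))).re := by
      congr 1
      funext y
      exact hpt y
    rw [h1, re_int hsi, int_scale, hI]
    unfold ld
    have h2 : (2 * Real.pi : ℂ) * -((((τ : ℂ) + σ) / (2 * σ)) * lap f ((σ + τ : ℝ) : ℂ)) =
        ((Real.pi * ((τ + σ) / σ) : ℝ) : ℂ) * -lap f ((σ + τ : ℝ) : ℂ) := by
      push_cast
      field_simp
    have h3 : -((σ + τ : ℝ) : ℂ) * lap f ((σ + τ : ℝ) : ℂ) =
        ((σ + τ : ℝ) : ℂ) * -lap f ((σ + τ : ℝ) : ℂ) := by ring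
    rw [h2, h3, Complex.re_ofReal_mul, Complex.re_ofReal_mul]
    have := Real.pi_ne_zero
    field_simp
    ring

end Pool.Agent.Q237.HV
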